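import Pool.Agent.Q189.PF.Par
import Pool.Agent.Y787.PInst
import Pool.Agent.TH160.TowP.PFull

/-!
# Every finitely generated group contains few counterexamples to the `p`-adic strong four exponentials conjecture

Let `Ω` be the algebraic closure of `ℚ_p` and `𝓛` the space of all linear combinations, with algebraic coefficients, of `1`
and of values of the Iwasawa logarithm at algebraic numbers. A counterexample to the conjecture is a matrix of rank one
with entries in `𝓛`, with independent rows and independent columns. Hence it has the form `(a, a g; c, c g)` with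
transcendental `c / a` and `g`. We prove unconditionally:

1. Let `G` be a multiplicative group of rank `r` modulo the algebraic numbers (any `r + 1` elements have a nontrivial
   algebraic monomial), and `a, c` fixed. The `g ∈ G` for which `(a, a g; c, c g)` is a counterexample lie in at most `r`
   classes modulo the algebraic numbers.
2. In particular let `K` be a number field of degree `d`, `α` an algebraic number with `log α ≠ 0`. The powers `α ^ β`,
   `β ∈ K` (all determinations, that is all `u` with `log u = β log α`), with `a α ^ β` and `c α ^ β` in `𝓛` belong to at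
   most `d` classes of exponents `β` modulo `ℚ`, for all `a, c` with transcendental `c / a`. According to the conjecture
   there is only one class.
3. Let `g_1, …, g_r` be numbers without algebraic monomials, `s ≠ 0` any number. Let `E` be the number of integer
   vectors `m` with `|m_i| ≤ H` and `s g ^ m ∈ 𝓛`. Then `E (E - 1) ≤ (r + 1) ((4 H + 1) ^ r - 1)`. So `E = O(H ^ (r / 2))`;
   the conjecture says that the set of these `m` is a Sidon set, which gives the same exponent.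
4. The number of the exponent matrices `m`, with entries in the box, for which some matrix `(c_ij s g ^ (m_ij))` with
   algebraic `c_ij` is a counterexample, is at most `r E (E - 1) ≤ r (r + 1) ((4 H + 1) ^ r - 1)`, out of about `H ^ (3 r)`
   matrices of rank one.
5. Let `y_1, …, y_N` be any numbers. For all but `C H ^ (r N / (N + 1))` of the vectors `m`, with a constant `C` depending
   on `r` and `N` only, no number `g ^ m (b_1 y_1 + … + b_N y_N) ≠ 0` with algebraic `b_j` is in `𝓛`.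

Proof. By the strong six exponentials theorem in the `p`-adic case (Waldschmidt, Roy; in the library) the numbers `z` with
`a z`, `c z` in `𝓛` form a space of dimension at most two over the algebraic numbers. Such a space meets `G` in at most
`r + 1` classes (helper147, `Pool.Agent.Q147.TG`: places of `Ω` over the algebraic numbers). For 3 and 4 one counts the
differences. For 5 see `Pool.Agent.Q147.TG.Main`.
-/

set_option autoImplicit false

namespace Pool.Agent.Results.MP_dd0d16_nt.FewInGroups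

open Module

section Definitions

variable {p : ℕ} [Fact p.Prime] (L : PadicAlgCl p → PadicAlgCl p)

/-- `L` is the Iwasawa `p`-adic logarithm on the algebraic closure of `ℚ_p`. -/
def IsIwasawaLog : Prop :=
  (∀ x y : PadicAlgCl p, x ≠ 0 → y ≠ 0 → L (x * y) = L x + L y) ∧
  L ((p : ℕ) : PadicAlgCl p) = 0 ∧
  ∀ z : PadicAlgCl p, ‖z‖ < 1 →
    HasSum (fun n : ℕ => (-1 : PadicAlgCl p) ^ n * z ^ (n + 1) / ((n : PadicAlgCl p) + 1))
      (L (1 + z))

/-- All linear combinations of `1` and the logarithms of algebraic numbers, with algebraic coefficients. -/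
noncomputable def LinForms : Submodule (algebraicClosure ℚ (PadicAlgCl p)) (PadicAlgCl p) :=
  Submodule.span (algebraicClosure ℚ (PadicAlgCl p)) ({1} ∪ {z | ∃ α, α ≠ 0 ∧ IsAlgebraic ℚ α ∧ z = L α})

/-- A counterexample to the strong four exponentials conjecture (as in the frozen statement). -/
def IsCounterexample (M : Matrix (Fin 2) (Fin 2) (PadicAlgCl p)) : Prop :=
  (∀ i j, M i j ∈ LinForms L) ∧ M.det = 0 ∧
  (∀ a b : PadicAlgCl p, IsAlgebraic ℚ a → IsAlgebraic ℚ b → (∀ j, a * M 0 j + b * M 1 j = 0) → a = 0 ∧ b = 0) ∧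
  (∀ a b : PadicAlgCl p, IsAlgebraic ℚ a → IsAlgebraic ℚ b → (∀ i, a * M i 0 + b * M i 1 = 0) → a = 0 ∧ b = 0)

/-- Any `r + 1` elements of the group `G` have a nontrivial monomial which is algebraic. -/
def RankLe (G : Subgroup (PadicAlgCl p)ˣ) (r : ℕ) : Prop :=
  ∀ x : Fin (r + 1) → (PadicAlgCl p)ˣ, (∀ i, x i ∈ G) → ∃ n : Fin (r + 1) → ℤ, n ≠ 0 ∧
    IsAlgebraic ℚ (∏ i, (x i : PadicAlgCl p) ^ n i)

/-- the exponents `m`, `|m_i| ≤ H`, with `s g ^ m` in `𝓛` -/
def exponents {r : ℕ} (g : Fin r → PadicAlgCl p) (s : PadicAlgCl p) (H : ℕ) : Set (Fin r → ℤ) :=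
  {m | (∀ i, |m i| ≤ H) ∧ s * ∏ i, g i ^ m i ∈ LinForms L}

/-- the exponent matrices in the box which belong to counterexamples `(c_ij s g ^ (m_ij))` with algebraic `c_ij` -/
def matrices {r : ℕ} (g : Fin r → PadicAlgCl p) (s : PadicAlgCl p) (H : ℕ) : Set (Fin 2 → Fin 2 → Fin r → ℤ) :=
  {m | (∀ i j l, |m i j l| ≤ H) ∧ ∃ c : Fin 2 → Fin 2 → PadicAlgCl p, (∀ i j, IsAlgebraic ℚ (c i j)) ∧
    IsCounterexample L (Matrix.of fun i j => c i j * (s * ∏ l, g l ^ m i j l))}

/-- the constant in (5) -/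
def constant (r N : ℕ) : ℕ :=
  (2 * ((N + 1) * Nat.multichoose N r)) ^ (N + 1) + 2 * ((N + 1) * ((N + 1) * N * N) ^ r) * 5 ^ (r * N)

theorem constant_eq (r N : ℕ) : constant r N = Pool.Agent.Q147.TG.cst N r := rfl

end Definitions

section Proofs

open Pool.Agent.Q147.TG Pool.Agent.Y787
open Pool.Agent.W254.PA (LtE logs)

variable {p : ℕ} [hp : Fact p.Prime] {L : PadicAlgCl p → PadicAlgCl p}

theorem iw (hL : IsIwasawaLog L) : Pool.Agent.W245.PB.IsIwasawaLog p L := ⟨hL.1, hL.2.1, hL.2.2⟩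

theorem linForms_eq : LinForms L = LtE (logs L) := rfl

theorem alg_smul {c : PadicAlgCl p} (hc : IsAlgebraic ℚ c) {z : PadicAlgCl p} (hz : z ∈ LinForms L) :
    c * z ∈ LinForms L := by
  have : c * z = (⟨c, mem_QC.2 hc⟩ : QC (PadicAlgCl p)) • z := by
    rw [Algebra.smul_def]
    rfl
  rw [this]
  exact Submodule.smul_mem _ _ hz

theorem rankLe_iff {G : Subgroup (PadicAlgCl p)ˣ} {r : ℕ} (h : RankLe G r) :
    Pool.Agent.Q147.TG.RankLe (QC (PadicAlgCl p)) G r := by
  intro x hx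
  obtain ⟨n, hn, ha⟩ := h x hx
  refine ⟨n, hn, cst_iff.2 ?_⟩
  rw [Units.coe_prod]
  simpa only [Units.val_zpow_eq_zpow_val] using ha

theorem sep_of {B : Finset (PadicAlgCl p)ˣ}
    (h : ∀ g ∈ B, ∀ g' ∈ B, IsAlgebraic ℚ ((g / g' : (PadicAlgCl p)ˣ) : PadicAlgCl p) → g = g') :
    Pool.Agent.Q147.TG.Sep (QC (PadicAlgCl p)) B :=
  fun x hx y hy hxy => h x hx y hy (cst_iff.1 hxy)

/-- the general bound -/
theorem bound (hL : IsIwasawaLog L) {r : ℕ} {G : Subgroup (PadicAlgCl p)ˣ} (hG : RankLe G r) {a c : PadicAlgCl p}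
    (ha : a ≠ 0) (hac : ¬ IsAlgebraic ℚ (c / a)) (B : Finset (PadicAlgCl p)ˣ) (hB : ∀ g ∈ B, g ∈ G)
    (hBL : ∀ g ∈ B, a * g ∈ LinForms L ∧ c * g ∈ LinForms L)
    (hs : ∀ g ∈ B, ∀ g' ∈ B, IsAlgebraic ℚ ((g / g' : (PadicAlgCl p)ˣ) : PadicAlgCl p) → g = g') : B.card ≤ r + 1 := by
  have := hypC_padic (iw hL)
  refine Pool.Agent.Q189.PF.card_two (Lt := LtE (logs L)) (rankLe_iff hG) hac (Units.mk0 a ha) B hB (fun x hx => ?_) (sep_of hs)
  obtain ⟨h1, h2⟩ := hBL x hx
  refine ⟨h1, ?_⟩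
  have e : c / a * ((Units.mk0 a ha : (PadicAlgCl p)ˣ) * (x : PadicAlgCl p)) = c * x := by
    rw [Units.val_mk0]
    field_simp
  rw [e]
  exact h2

theorem free_of {r : ℕ} {g : Fin r → PadicAlgCl p} (hg0 : ∀ i, g i ≠ 0)
    (hg : ∀ m : Fin r → ℤ, IsAlgebraic ℚ (∏ i, g i ^ m i) → m = 0) :
    Free (QC (PadicAlgCl p)) (fun i => Units.mk0 (g i) (hg0 i)) ∧
      ∀ m : Fin r → ℤ, ((mon (fun i => Units.mk0 (g i) (hg0 i)) m : (PadicAlgCl p)ˣ) : PadicAlgCl p) = ∏ i, g i ^ m i := by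
  have hval : ∀ m : Fin r → ℤ, ((mon (fun i => Units.mk0 (g i) (hg0 i)) m : (PadicAlgCl p)ˣ) : PadicAlgCl p) =
      ∏ i, g i ^ m i := by
    intro m
    rw [mon, Units.coe_prod]
    exact Finset.prod_congr rfl fun i _ => by
      rw [Units.val_zpow_eq_zpow_val]
      rfl
  refine ⟨fun m hm => hg m ?_, hval⟩
  rw [cst_iff, hval] at hm
  exact hm

theorem finite_box (r H : ℕ) (P : (Fin r → ℤ) → Prop) : {m : Fin r → ℤ | (∀ i, |m i| ≤ H) ∧ P m}.Finite :=
  (box r H).finite_toSet.subset fun _ hm => Finset.mem_coe.2 (mem_box.2 hm.1)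

theorem finite_box2 (r H : ℕ) (P : (Fin 2 → Fin 2 → Fin r → ℤ) → Prop) :
    {m : Fin 2 → Fin 2 → Fin r → ℤ | (∀ i j l, |m i j l| ≤ H) ∧ P m}.Finite := by
  refine (Fintype.piFinset fun _ : Fin 2 => Fintype.piFinset fun _ : Fin 2 => box r H).finite_toSet.subset fun m hm => ?_
  exact Finset.mem_coe.2 (Fintype.mem_piFinset.2 fun i => Fintype.mem_piFinset.2 fun j => mem_box.2 (hm.1 i j))

theorem count_exp (hL : IsIwasawaLog L) {r : ℕ} {g : Fin r → PadicAlgCl p} (hg0 : ∀ i, g i ≠ 0)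
    (hg : ∀ m : Fin r → ℤ, IsAlgebraic ℚ (∏ i, g i ^ m i) → m = 0) {s : PadicAlgCl p} (hs : s ≠ 0) (H : ℕ) :
    (exponents L g s H).ncard * ((exponents L g s H).ncard - 1) ≤ (r + 1) * ((4 * H + 1) ^ r - 1) := by
  have := hypC_padic (iw hL)
  obtain ⟨h1, h2⟩ := free_of hg0 hg
  unfold exponents
  rw [Set.ncard_eq_toFinset_card _ (finite_box r H _)]
  refine Pool.Agent.Q189.PF.card_box_mem (Lt := LtE (logs L)) h1 (Units.mk0 s hs) _ (fun m hm => ?_) fun m hm => ?_
  · exact ((finite_box r H _).mem_toFinset.1 hm).1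
  · rw [h2]
    exact ((finite_box r H _).mem_toFinset.1 hm).2

theorem count_mat (hL : IsIwasawaLog L) {r : ℕ} {g : Fin r → PadicAlgCl p} (hg0 : ∀ i, g i ≠ 0)
    (hg : ∀ m : Fin r → ℤ, IsAlgebraic ℚ (∏ i, g i ^ m i) → m = 0) {s : PadicAlgCl p} (hs : s ≠ 0) (H : ℕ) :
    (matrices L g s H).ncard ≤ r * ((exponents L g s H).ncard * ((exponents L g s H).ncard - 1)) := by
  have := hypC_padic (iw hL)
  obtain ⟨h1, h2⟩ := free_of hg0 hg
  have hone : IsAlgebraic ℚ (1 : PadicAlgCl p) := isAlgebraic_one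
  have hzero : IsAlgebraic ℚ (0 : PadicAlgCl p) := isAlgebraic_zero
  have hmon : ∀ m : Fin r → ℤ, ∏ i, g i ^ m i ≠ 0 := fun m => Finset.prod_ne_zero_iff.2 fun i _ => zpow_ne_zero _ (hg0 i)
  have hadd : ∀ m m' : Fin r → ℤ, (∏ i, g i ^ m i) * ∏ i, g i ^ m' i = ∏ i, g i ^ (m + m') i := by
    intro m m'
    rw [← Finset.prod_mul_distrib]
    exact Finset.prod_congr rfl fun i _ => by rw [Pi.add_apply, zpow_add₀ (hg0 i)]
  unfold matrices
  rw [Set.ncard_eq_toFinset_card _ (finite_box2 r H _)]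
  rw [show (exponents L g s H).ncard = (finite_box r H fun m => s * ∏ i, g i ^ m i ∈ LinForms L).toFinset.card from
    Set.ncard_eq_toFinset_card _ (finite_box r H _)]
  have hmem : ∀ q ∈ (finite_box2 r H fun m => ∃ c : Fin 2 → Fin 2 → PadicAlgCl p, (∀ i j, IsAlgebraic ℚ (c i j)) ∧
      IsCounterexample L (Matrix.of fun i j => c i j * (s * ∏ l, g l ^ m i j l))).toFinset,
      (∀ i j, (∀ l, |q i j l| ≤ H) ∧ s * ∏ l, g l ^ q i j l ∈ LinForms L) ∧ q 0 0 + q 1 1 = q 0 1 + q 1 0 ∧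
        q 0 0 ≠ q 0 1 ∧ q 0 0 ≠ q 1 0 := by
    intro q hq
    obtain ⟨hb, c, hc, hM1, hM2, hM3, hM4⟩ := (finite_box2 r H _).mem_toFinset.1 hq
    rw [Matrix.det_fin_two] at hM2
    simp only [Matrix.of_apply] at hM1 hM2 hM3 hM4
    -- all the coefficients are different from zero
    have hc0 : ∀ i j, c i j ≠ 0 := by
      intro i j h0
      have hz : c i j * (s * ∏ l, g l ^ q i j l) = 0 := by rw [h0, zero_mul]
      have hrow : ∀ i, ¬ ∀ j, c i j * (s * ∏ l, g l ^ q i j l) = 0 := by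
        intro i h
        fin_cases i
        · exact one_ne_zero (hM3 1 0 hone hzero fun j => by rw [one_mul, zero_mul, add_zero]; exact h j).1
        · exact one_ne_zero (hM3 0 1 hzero hone fun j => by rw [one_mul, zero_mul, zero_add]; exact h j).2
      have hcol : ∀ j, ¬ ∀ i, c i j * (s * ∏ l, g l ^ q i j l) = 0 := by
        intro j h
        fin_cases j
        · exact one_ne_zero (hM4 1 0 hone hzero fun i => by rw [one_mul, zero_mul, add_zero]; exact h i).1
        · exact one_ne_zero (hM4 0 1 hzero hone fun i => by rw [one_mul, zero_mul, zero_add]; exact h i).2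
      have key : ∀ i' j' : Fin 2, c i' j' * (s * ∏ l, g l ^ q i' j' l) = 0 →
          c i' (1 - j') * (s * ∏ l, g l ^ q i' (1 - j') l) = 0 ∨ c (1 - i') j' * (s * ∏ l, g l ^ q (1 - i') j' l) = 0 := by
        intro i' j' h
        fin_cases i' <;> fin_cases j'
        · simp only [Fin.zero_eta, Fin.isValue, sub_zero] at h ⊢
          rw [h, zero_mul, zero_sub, neg_eq_zero] at hM2
          exact mul_eq_zero.1 hM2
        · simp only [Fin.zero_eta, Fin.isValue, sub_zero, Fin.mk_one, sub_self] at h ⊢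
          rw [h, zero_mul, sub_zero] at hM2
          exact mul_eq_zero.1 hM2
        · simp only [Fin.zero_eta, Fin.isValue, sub_zero, Fin.mk_one, sub_self] at h ⊢
          rw [h, mul_zero, sub_zero] at hM2
          exact (mul_eq_zero.1 hM2).symm
        · simp only [Fin.isValue, Fin.mk_one, sub_self] at h ⊢
          rw [h, mul_zero, zero_sub, neg_eq_zero] at hM2
          exact (mul_eq_zero.1 hM2).symm
      rcases key i j hz with h | h
      · refine hrow i fun j' => ?_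
        have : j' = j ∨ j' = 1 - j := by fin_cases j <;> fin_cases j' <;> simp
        rcases this with rfl | rfl
        · exact hz
        · exact h
      · refine hcol j fun i' => ?_
        have : i' = i ∨ i' = 1 - i := by fin_cases i <;> fin_cases i' <;> simp
        rcases this with rfl | rfl
        · exact hz
        · exact h
    have hL' : ∀ i j, s * ∏ l, g l ^ q i j l ∈ LinForms L := by
      intro i j
      have h := alg_smul (hc i j).inv (hM1 i j)
      rwa [inv_mul_cancel_left₀ (hc0 i j)] at h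
    refine ⟨fun i j => ⟨hb i j, hL' i j⟩, ?_, ?_, ?_⟩
    · have e1 : (c 0 0 * c 1 1) * ((∏ l, g l ^ q 0 0 l) * ∏ l, g l ^ q 1 1 l) =
          (c 0 1 * c 1 0) * ((∏ l, g l ^ q 0 1 l) * ∏ l, g l ^ q 1 0 l) := by
        have : s ^ 2 * ((c 0 0 * c 1 1) * ((∏ l, g l ^ q 0 0 l) * ∏ l, g l ^ q 1 1 l)) =
          s ^ 2 * ((c 0 1 * c 1 0) * ((∏ l, g l ^ q 0 1 l) * ∏ l, g l ^ q 1 0 l)) := by linear_combination hM2
        exact mul_left_cancel₀ (pow_ne_zero 2 hs) this
      rw [hadd, hadd] at e1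
      have e2 : ∏ l, g l ^ ((q 0 0 + q 1 1) - (q 0 1 + q 1 0)) l = (c 0 1 * c 1 0) / (c 0 0 * c 1 1) := by
        rw [eq_div_iff (mul_ne_zero (hc0 _ _) (hc0 _ _))]
        have e3 : (∏ l, g l ^ ((q 0 0 + q 1 1) - (q 0 1 + q 1 0)) l) * ∏ l, g l ^ (q 0 1 + q 1 0) l =
            ∏ l, g l ^ (q 0 0 + q 1 1) l := by rw [hadd, sub_add_cancel]
        refine mul_right_cancel₀ (hmon (q 0 1 + q 1 0)) ?_
        rw [← e1, ← e3]
        ring
      have e4 := hg _ (by rw [e2]; exact ((hc 0 1).mul (hc 1 0)).mul ((hc 0 0).mul (hc 1 1)).inv)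
      exact sub_eq_zero.1 e4
    · intro h
      have h' := hM4 (c 0 1 * c 1 1) (-(c 0 0 * c 1 1)) ((hc 0 1).mul (hc 1 1)) ((hc 0 0).mul (hc 1 1)).neg (fun i => by
        fin_cases i
        · simp only [Fin.zero_eta, Fin.isValue]
          rw [← h]
          ring
        · simp only [Fin.isValue, Fin.mk_one]
          have hne : s * ∏ l, g l ^ q 0 0 l ≠ 0 := mul_ne_zero hs (hmon _)
          refine mul_left_cancel₀ hne ?_
          rw [← h] at hM2
          linear_combination -(c 1 1) * hM2)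
      exact mul_ne_zero (hc0 0 1) (hc0 1 1) h'.1
    · intro h
      have h' := hM3 (c 1 0 * c 1 1) (-(c 0 0 * c 1 1)) ((hc 1 0).mul (hc 1 1)) ((hc 0 0).mul (hc 1 1)).neg (fun j => by
        fin_cases j
        · simp only [Fin.zero_eta, Fin.isValue]
          rw [← h]
          ring
        · simp only [Fin.isValue, Fin.mk_one]
          have hne : s * ∏ l, g l ^ q 0 0 l ≠ 0 := mul_ne_zero hs (hmon _)
          refine mul_left_cancel₀ hne ?_
          rw [← h] at hM2
          linear_combination -(c 1 1) * hM2)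
      exact mul_ne_zero (hc0 1 0) (hc0 1 1) h'.1
  refine Pool.Agent.Q189.PF.card_par (Lt := LtE (logs L)) h1 (Units.mk0 s hs) _ (fun m hm => ?_) _ (fun q hq i j => ?_)
    (fun q hq => (hmem q hq).2)
  · rw [h2]
    exact ((finite_box r H _).mem_toFinset.1 hm).2
  · exact (finite_box r H _).mem_toFinset.2 ((hmem q hq).1 i j)

/-- the powers of an algebraic number with exponents in a number field -/
def powers (L : PadicAlgCl p → PadicAlgCl p) (hL : IsIwasawaLog L) (K : IntermediateField ℚ (PadicAlgCl p))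
    (α : PadicAlgCl p) : Subgroup (PadicAlgCl p)ˣ where
  carrier := {u | ∃ β ∈ K, L u = β * L α}
  mul_mem' := by
    rintro u v ⟨β, hβ, hu⟩ ⟨γ, hγ, hv⟩
    refine ⟨β + γ, K.add_mem hβ hγ, ?_⟩
    rw [Units.val_mul, hL.1 _ _ u.ne_zero v.ne_zero, hu, hv]
    ring
  one_mem' := ⟨0, K.zero_mem, by rw [Units.val_one, (iw hL).one, zero_mul]⟩
  inv_mem' := by
    rintro u ⟨β, hβ, hu⟩
    refine ⟨-β, K.neg_mem hβ, ?_⟩
    have h1 := hL.1 (u : PadicAlgCl p) ((u⁻¹ : (PadicAlgCl p)ˣ) : PadicAlgCl p) u.ne_zero (Units.ne_zero _)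
    rw [Units.mul_inv, (iw hL).one, hu] at h1
    linear_combination -h1

theorem log_prod (hL : IsIwasawaLog L) {ι : Type} (t : Finset ι) (x : ι → (PadicAlgCl p)ˣ) (n : ι → ℤ) :
    L (∏ i ∈ t, (x i : PadicAlgCl p) ^ n i) = ∑ i ∈ t, (n i : PadicAlgCl p) * L (x i) := by
  classical
  induction t using Finset.induction_on with
  | empty => rw [Finset.prod_empty, Finset.sum_empty, (iw hL).one]
  | insert i t hi ih =>
    rw [Finset.prod_insert hi, Finset.sum_insert hi, hL.1 _ _ (zpow_ne_zero _ (x i).ne_zero)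
      (Finset.prod_ne_zero_iff.2 fun j _ => zpow_ne_zero _ (x j).ne_zero), ih, (iw hL).zpow (x i).ne_zero]

theorem rel_of (K : IntermediateField ℚ (PadicAlgCl p)) [FiniteDimensional ℚ K] {d : ℕ} (hd : finrank ℚ K ≤ d + 1)
    (β : Fin (d + 1) → PadicAlgCl p) (hβ : ∀ i, β i ∈ K) : ∃ (n₀ : ℤ) (n : Fin (d + 1) → ℤ), n ≠ 0 ∧
      (n₀ : PadicAlgCl p) + ∑ i, (n i : PadicAlgCl p) * β i = 0 := by
  have hdep : ¬ LinearIndependent ℤ (fun o : Option (Fin (d + 1)) => (o.elim 1 fun i => ⟨β i, hβ i⟩ : K)) := by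
    rw [LinearIndependent.iff_fractionRing ℤ ℚ]
    intro h
    have h1 := h.fintype_card_le_finrank
    rw [Fintype.card_option, Fintype.card_fin] at h1
    omega
  rw [Fintype.not_linearIndependent_iff] at hdep
  obtain ⟨n, hn, i₀, hi₀⟩ := hdep
  rw [Fintype.sum_option] at hn
  have h1 : ((n none • (1 : K) + ∑ i, n (some i) • (⟨β i, hβ i⟩ : K) : K) : PadicAlgCl p) = 0 := by
    have h2 : (n none • (1 : K) + ∑ i, n (some i) • (⟨β i, hβ i⟩ : K) : K) = 0 := hn
    rw [h2]
    rfl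
  have hsum : (n none : PadicAlgCl p) + ∑ i, (n (some i) : PadicAlgCl p) * β i = 0 := by
    rw [← h1]
    push_cast
    simp only [zsmul_eq_mul, mul_one]
  refine ⟨n none, fun i => n (some i), fun h0 => ?_, hsum⟩
  have hz : ∀ i : Fin (d + 1), n (some i) = 0 := fun i => congrFun h0 i
  have hz0 : n none = 0 := by
    simp only [hz, Int.cast_zero, zero_mul, Finset.sum_const_zero, add_zero] at hsum
    exact_mod_cast hsum
  rcases i₀ with _ | i
  · exact hi₀ hz0
  · exact hi₀ (hz i)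

theorem rank_powers (hL : IsIwasawaLog L) (K : IntermediateField ℚ (PadicAlgCl p)) [FiniteDimensional ℚ K] {α : PadicAlgCl p}
    (hα0 : α ≠ 0) (hα : IsAlgebraic ℚ α) {d : ℕ} (hd : finrank ℚ K ≤ d + 1) : RankLe (powers L hL K α) d := by
  intro x hx
  choose β hβK hβ using hx
  obtain ⟨n₀, n, hn, hsum⟩ := rel_of K hd β hβK
  refine ⟨n, hn, ?_⟩
  have hprod : ∏ i, (x i : PadicAlgCl p) ^ n i ≠ 0 :=
    Finset.prod_ne_zero_iff.2 fun j _ => zpow_ne_zero _ (x j).ne_zero
  have h1 : L ((∏ i, (x i : PadicAlgCl p) ^ n i) * α ^ n₀) = 0 := by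
    rw [hL.1 _ _ hprod (zpow_ne_zero _ hα0), log_prod hL Finset.univ x n, (iw hL).zpow hα0]
    have h2 : ∀ i : Fin (d + 1), (n i : PadicAlgCl p) * L (x i) = (n i * β i) * L α := fun i => by
      rw [hβ i]; ring
    simp only [h2]
    rw [← Finset.sum_mul]
    linear_combination L α * hsum
  have h2 := Pool.Agent.TH160.TowP.ker_alg (iw hL) (mul_ne_zero hprod (zpow_ne_zero _ hα0)) h1
  have h3 : ∏ i, (x i : PadicAlgCl p) ^ n i = ((∏ i, (x i : PadicAlgCl p) ^ n i) * α ^ n₀) * (α ^ n₀)⁻¹ := by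
    rw [mul_inv_cancel_right₀ (zpow_ne_zero _ hα0)]
  rw [h3]
  exact h2.mul (Pool.Agent.W245.PB.isAlgebraic_zpow hα _).inv

/-- the theorem of Brumer for two logarithms -/
theorem rat_of (hL : IsIwasawaLog L) {α x γ : PadicAlgCl p} (hα0 : α ≠ 0) (hα : IsAlgebraic ℚ α) (hαL : L α ≠ 0)
    (hx0 : x ≠ 0) (hx : IsAlgebraic ℚ x) (hγ : IsAlgebraic ℚ γ) (h : L x = γ * L α) : ∃ q : ℚ, γ = q := by
  by_contra hcon
  push Not at hcon
  have hli : LinearIndependent ℚ fun i : Fin 2 => L ((![x, α] : Fin 2 → PadicAlgCl p) i) := by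
    have e : (fun i : Fin 2 => L ((![x, α] : Fin 2 → PadicAlgCl p) i)) = ![L x, L α] := by
      funext i
      fin_cases i <;> rfl
    rw [e, LinearIndependent.pair_iff]
    intro a b hab
    have hab' : (a : PadicAlgCl p) * L x + (b : PadicAlgCl p) * L α = 0 := by
      rw [Algebra.smul_def, Algebra.smul_def] at hab
      exact hab
    rw [h] at hab'
    have h1 : (a : PadicAlgCl p) * γ + b = 0 := by
      have : ((a : PadicAlgCl p) * γ + b) * L α = 0 := by linear_combination hab'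
      exact (mul_eq_zero.1 this).resolve_right hαL
    have ha : a = 0 := by
      by_contra ha
      have ha' : (a : PadicAlgCl p) ≠ 0 := by exact_mod_cast ha
      apply hcon (-b / a)
      push_cast
      rw [eq_div_iff ha']
      linear_combination h1
    refine ⟨ha, ?_⟩
    rw [ha] at h1
    have : (b : PadicAlgCl p) = 0 := by
      rw [Rat.cast_zero, zero_mul, zero_add] at h1
      exact h1
    exact_mod_cast this
  have h2 := Pool.Agent.W245.PB.brumer (iw hL) ![x, α] (fun i => by fin_cases i <;> [exact hx0; exact hα0])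
    (fun i => by fin_cases i <;> [exact hx; exact hα]) hli 0 isAlgebraic_zero ![1, -γ]
    (fun i => by fin_cases i <;> [exact isAlgebraic_one; exact hγ.neg]) (by
      rw [Fin.sum_univ_two]
      simp only [Matrix.cons_val_zero, Matrix.cons_val_one]
      rw [h]
      ring)
  have h3 := h2.2 0
  simp at h3

theorem one_col (hL : IsIwasawaLog L) {r : ℕ} {G : Subgroup (PadicAlgCl p)ˣ} (hG : RankLe G r) (a c : PadicAlgCl p)
    (B : Finset (PadicAlgCl p)ˣ) (hB : ∀ g ∈ B, g ∈ G ∧ IsCounterexample L !![a, a * g; c, c * g])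
    (hs : ∀ g ∈ B, ∀ g' ∈ B, IsAlgebraic ℚ ((g / g' : (PadicAlgCl p)ˣ) : PadicAlgCl p) → g = g') : B.card ≤ r := by
  classical
  rcases B.eq_empty_or_nonempty with rfl | ⟨g₀, hg₀⟩
  · simp
  have hone : IsAlgebraic ℚ (1 : PadicAlgCl p) := isAlgebraic_one
  have hzero : IsAlgebraic ℚ (0 : PadicAlgCl p) := isAlgebraic_zero
  obtain ⟨-, h1, -, h3, -⟩ := hB g₀ hg₀
  have ha : a ≠ 0 := by
    rintro rfl
    refine one_ne_zero (h3 1 0 hone hzero fun j => ?_).1
    fin_cases j <;> simp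
  have hac : ¬ IsAlgebraic ℚ (c / a) := by
    intro h
    have h4 := (h3 (c / a) (-1) h hone.neg fun j => ?_).2
    · exact one_ne_zero (neg_eq_zero.1 h4)
    · fin_cases j
      · simp
        field_simp
        ring
      · simp
        field_simp
        ring
  have hgn : ∀ g ∈ B, ¬ IsAlgebraic ℚ (g : PadicAlgCl p) := by
    intro g hg h
    obtain ⟨-, -, -, -, h4⟩ := hB g hg
    have h5 := (h4 (g : PadicAlgCl p) (-1) h hone.neg fun i => ?_).2
    · exact one_ne_zero (neg_eq_zero.1 h5)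
    · fin_cases i
      · simp
        ring
      · simp
        ring
  have h1B : (1 : (PadicAlgCl p)ˣ) ∉ B := fun h => hgn 1 h (by rw [Units.val_one]; exact hone)
  have hmem : ∀ g ∈ insert 1 B, g ∈ G ∧ a * g ∈ LinForms L ∧ c * g ∈ LinForms L := by
    intro g hg
    rcases Finset.mem_insert.1 hg with rfl | hg
    · refine ⟨G.one_mem, ?_, ?_⟩
      · rw [Units.val_one, mul_one]
        exact h1 0 0
      · rw [Units.val_one, mul_one]
        exact h1 1 0
    · obtain ⟨h5, h6, -⟩ := hB g hg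
      exact ⟨h5, h6 0 1, h6 1 1⟩
  have h2 := bound hL hG ha hac (insert 1 B) (fun g hg => (hmem g hg).1) (fun g hg => (hmem g hg).2) (by
    intro g hg g' hg' h
    rcases Finset.mem_insert.1 hg with rfl | hg <;> rcases Finset.mem_insert.1 hg' with rfl | hg'
    · rfl
    · refine absurd ?_ (hgn g' hg')
      rw [one_div] at h
      have h7 := h.inv
      rwa [← Units.val_inv_eq_inv_val, inv_inv] at h7
    · refine absurd ?_ (hgn g hg)
      rwa [div_one] at h
    · exact hs g hg g' hg' h)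
  rw [Finset.card_insert_of_notMem h1B] at h2
  omega

theorem field_pow (hL : IsIwasawaLog L) (K : IntermediateField ℚ (PadicAlgCl p)) [FiniteDimensional ℚ K] {α : PadicAlgCl p}
    (hα0 : α ≠ 0) (hα : IsAlgebraic ℚ α) (hαL : L α ≠ 0) {a c : PadicAlgCl p} (ha : a ≠ 0) (hac : ¬ IsAlgebraic ℚ (c / a))
    (B : Finset (PadicAlgCl p)) (hB : ∀ β ∈ B, β ∈ K ∧
        ∃ u : PadicAlgCl p, u ≠ 0 ∧ L u = β * L α ∧ a * u ∈ LinForms L ∧ c * u ∈ LinForms L)
    (hs : ∀ β ∈ B, ∀ β' ∈ B, ∀ q : ℚ, β - β' = q → β = β') : B.card ≤ finrank ℚ K := by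
  classical
  have hpos : 0 < finrank ℚ K := finrank_pos
  choose! hK u hu0 hu1 hu2 hu3 using hB
  let v : PadicAlgCl p → (PadicAlgCl p)ˣ := fun β => if h : u β ≠ 0 then Units.mk0 (u β) h else 1
  have hv : ∀ β ∈ B, (v β : PadicAlgCl p) = u β := by
    intro β hβ
    simp only [v]
    rw [dif_pos (hu0 β hβ), Units.val_mk0]
  have hinj : Set.InjOn v B := by
    intro β hβ β' hβ' h
    have h1 : u β = u β' := by rw [← hv β hβ, ← hv β' hβ', h]
    have h2 := hu1 β hβ
    rw [h1, hu1 β' hβ'] at h2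
    exact (mul_right_cancel₀ hαL h2).symm
  rw [← Finset.card_image_of_injOn hinj]
  have h1 := bound hL (rank_powers hL K hα0 hα (d := finrank ℚ K - 1) (by omega)) ha hac (B.image v) ?_ ?_ ?_
  · omega
  · intro g hg
    obtain ⟨β, hβ, rfl⟩ := Finset.mem_image.1 hg
    refine ⟨β, hK β hβ, ?_⟩
    rw [hv β hβ]
    exact hu1 β hβ
  · intro g hg
    obtain ⟨β, hβ, rfl⟩ := Finset.mem_image.1 hg
    rw [hv β hβ]
    exact ⟨hu2 β hβ, hu3 β hβ⟩
  · intro g hg g' hg' h
    obtain ⟨β, hβ, rfl⟩ := Finset.mem_image.1 hg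
    obtain ⟨β', hβ', rfl⟩ := Finset.mem_image.1 hg'
    have h2 : L ((v β / v β' : (PadicAlgCl p)ˣ) : PadicAlgCl p) = (β - β') * L α := by
      have h3 := hL.1 ((v β / v β' : (PadicAlgCl p)ˣ) : PadicAlgCl p) (v β' : PadicAlgCl p) (Units.ne_zero _) (Units.ne_zero _)
      rw [← Units.val_mul, div_mul_cancel, hv β hβ, hv β' hβ', hu1 β hβ, hu1 β' hβ'] at h3
      linear_combination -h3
    have halg : IsAlgebraic ℚ (β - β') := by
      have h5 : IsAlgebraic ℚ (⟨β - β', K.sub_mem (hK β hβ) (hK β' hβ')⟩ : K) := Algebra.IsAlgebraic.isAlgebraic _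
      exact h5.algebraMap
    obtain ⟨q, hq⟩ := rat_of hL hα0 hα hαL (Units.ne_zero _) h halg h2
    rw [hs β hβ β' hβ' q hq]

theorem count_gen (hL : IsIwasawaLog L) {r : ℕ} {g : Fin r → PadicAlgCl p} (hg0 : ∀ i, g i ≠ 0)
    (hg : ∀ m : Fin r → ℤ, IsAlgebraic ℚ (∏ i, g i ^ m i) → m = 0) {N : ℕ} (y : Fin N → PadicAlgCl p) {H : ℕ} (hH : 1 ≤ H) :
    {m : Fin r → ℤ | (∀ i, |m i| ≤ H) ∧ ∃ b : Fin N → PadicAlgCl p, (∀ j, IsAlgebraic ℚ (b j)) ∧
      ∑ j, b j * y j ≠ 0 ∧ (∏ i, g i ^ m i) * ∑ j, b j * y j ∈ LinForms L}.ncard ^ (N + 1) ≤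
      cst N r * H ^ (r * N) := by
  classical
  have := hypC_padic (iw hL)
  obtain ⟨h1, h2⟩ := free_of hg0 hg
  let Y : Submodule (QC (PadicAlgCl p)) (PadicAlgCl p) := Submodule.span (QC (PadicAlgCl p)) (Set.range y)
  have hfin : FiniteDimensional (QC (PadicAlgCl p)) Y := FiniteDimensional.span_of_finite _ (Set.finite_range _)
  have hY : finrank (QC (PadicAlgCl p)) Y ≤ N := (finrank_range_le_card _).trans (by rw [Fintype.card_fin])
  rw [Set.ncard_eq_toFinset_card _ (finite_box r H _)]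
  refine card_exc_box (Lt := LtE (logs L)) h1 Y hY hH _ (fun m hm => ?_) fun m hm => ?_
  · exact ((finite_box r H _).mem_toFinset.1 hm).1
  · obtain ⟨b, hb, hb0, hbL⟩ := ((finite_box r H _).mem_toFinset.1 hm).2
    refine ⟨∑ j, b j * y j, Submodule.sum_mem _ fun j _ => ?_, hb0, ?_⟩
    · have : b j * y j = (⟨b j, mem_QC.2 (hb j)⟩ : QC (PadicAlgCl p)) • y j := by
        rw [Algebra.smul_def]
        rfl
      rw [this]
      exact Submodule.smul_mem _ _ (Submodule.subset_span ⟨j, rfl⟩)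
    · rw [h2]
      exact hbL

end Proofs

/-- **Main result.** -/
theorem result (p : ℕ) [Fact p.Prime] (L : PadicAlgCl p → PadicAlgCl p) (hL : IsIwasawaLog L) :
    -- (1) groups of rank `r` modulo the algebraic numbers
    (∀ (r : ℕ) (G : Subgroup (PadicAlgCl p)ˣ), RankLe G r → ∀ (a c : PadicAlgCl p) (B : Finset (PadicAlgCl p)ˣ),
      (∀ g ∈ B, g ∈ G ∧ IsCounterexample L !![a, a * g; c, c * g]) →
      (∀ g ∈ B, ∀ g' ∈ B, IsAlgebraic ℚ ((g / g' : (PadicAlgCl p)ˣ) : PadicAlgCl p) → g = g') → B.card ≤ r) ∧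
    -- (2) powers with exponents in a number field
    (∀ (K : IntermediateField ℚ (PadicAlgCl p)) [FiniteDimensional ℚ K] (α : PadicAlgCl p), α ≠ 0 → IsAlgebraic ℚ α →
      L α ≠ 0 → ∀ a c : PadicAlgCl p, a ≠ 0 → ¬ IsAlgebraic ℚ (c / a) → ∀ B : Finset (PadicAlgCl p), (∀ β ∈ B, β ∈ K ∧
        ∃ u : PadicAlgCl p, u ≠ 0 ∧ L u = β * L α ∧ a * u ∈ LinForms L ∧ c * u ∈ LinForms L) →
      (∀ β ∈ B, ∀ β' ∈ B, ∀ q : ℚ, β - β' = q → β = β') → B.card ≤ finrank ℚ K) ∧
    ∀ (r : ℕ) (g : Fin r → PadicAlgCl p), (∀ i, g i ≠ 0) → (∀ m : Fin r → ℤ, IsAlgebraic ℚ (∏ i, g i ^ m i) → m = 0) →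
      -- (3) monomials in linear forms, and (4) counterexamples
      (∀ (s : PadicAlgCl p), s ≠ 0 → ∀ H : ℕ,
        (exponents L g s H).ncard * ((exponents L g s H).ncard - 1) ≤ (r + 1) * ((4 * H + 1) ^ r - 1) ∧
        (matrices L g s H).ncard ≤ r * ((exponents L g s H).ncard * ((exponents L g s H).ncard - 1))) ∧
      -- (5) several numbers
      ∀ (N : ℕ) (y : Fin N → PadicAlgCl p) (H : ℕ), 1 ≤ H →
        {m : Fin r → ℤ | (∀ i, |m i| ≤ H) ∧ ∃ b : Fin N → PadicAlgCl p, (∀ j, IsAlgebraic ℚ (b j)) ∧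
          ∑ j, b j * y j ≠ 0 ∧ (∏ i, g i ^ m i) * ∑ j, b j * y j ∈ LinForms L}.ncard ^ (N + 1) ≤
          constant r N * H ^ (r * N) := by
  refine ⟨fun r G hG a c B hB hs => one_col hL hG a c B hB hs, fun K _ α hα0 hα hαL a c ha hac B hB hs =>
    field_pow hL K hα0 hα hαL ha hac B hB hs, fun r g hg0 hg => ⟨fun s hs H => ⟨count_exp hL hg0 hg hs H,
      count_mat hL hg0 hg hs H⟩, fun N y H hH => ?_⟩⟩
  rw [constant_eq]
  exact count_gen hL hg0 hg y hH

end Pool.Agent.Results.MP_dd0d16_nt.FewInGroups
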