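import Pool.Agent.Q138.PS.VF
import Pool.Agent.Results.MP_dd0d16_nt.TuplesPowerSaving

/-!
# The `p`-adic strong four exponentials conjecture and the logarithms of the integers close to `α P(n)`

Let `q ≥ 2` and let `𝒞_p` be a countable subset of the algebraic closure of `ℚ_p`, for each prime `p`. Outside a set of real
numbers of Hausdorff dimension at most `q / (q + 1 / (q 2 ^ (q - 1)))` (that is `8 / 9` for `q = 2`) every `α > 0` has the
following property. There is `η > 0` such that for ALL primes `p`, ALL number fields `K` in the algebraic closure of `ℚ_p` and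
ALL `K`-spaces `V` spanned by finitely many elements of `𝒞_p` there is `κ > 0` such that for all large `N` and ALL integral
polynomials `P` of degree `q` with positive leading coefficient and coefficients of size at most `N ^ η`: for all but
`N ^ (1 - κ)` of the `n ≤ N`, for EVERY integer `t ≥ 1` with `|t - ⌊α P(n)⌋| ≤ N ^ κ`: `log_p t` is not in `V`, and every `2 × 2` matrix
over `V + K log_p t` with an entry outside `V`, `K`-linearly independent rows and `K`-linearly independent columns has a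
determinant different from `0`.
-/

set_option autoImplicit false

open Module

namespace Pool.Agent.Results.MP_dd0d16_nt.PadicLogsAlongRealMultiples

open Finset Filter Topology
open Pool.Agent.Q138.PS
open TuplesPowerSaving (IsIwasawaLog StrongFour)

/-- `t ≥ 1` and the conclusion fails for `V + K L(t)` -/
def Fails {p : ℕ} [Fact p.Prime] (L : PadicAlgCl p → PadicAlgCl p) {K : IntermediateField ℚ (PadicAlgCl p)}
    (V : Submodule K (PadicAlgCl p)) (t : ℕ) : Prop :=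
  1 ≤ t ∧ ¬ StrongFour V fun _ : Fin 1 => L (t : PadicAlgCl p)

theorem few {p : ℕ} [Fact p.Prime] (L : PadicAlgCl p → PadicAlgCl p) (hL : IsIwasawaLog p L)
    (K : IntermediateField ℚ (PadicAlgCl p)) (hK : FiniteDimensional ℚ K) (V : Submodule K (PadicAlgCl p))
    (hV : Module.Finite K V) : ∃ c C : ℝ, 0 < c ∧ ∀ Y : ℕ, 1 ≤ Y → cn (Fails L V) Y ≤ C * (Y : ℝ) ^ (1 - c) := by
  obtain ⟨c, hc, C, h⟩ := TuplesPowerSaving.result 1 (finrank ℚ K) (finrank K V)
  refine ⟨c, C * p, hc, fun Y hY => ?_⟩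
  obtain ⟨B, hB, h1⟩ := h p L hL K hK le_rfl V hV le_rfl Y hY
  rw [Nat.cast_one] at hB
  refine le_trans (cn_of_fin _ _ B ?_) hB
  rintro t ht1 ht2 ⟨-, hbad⟩
  by_contra hn
  exact hbad (h1 (fun _ => t) (fun _ => ⟨ht1, ht2⟩) hn)

/-- **Theorem.** -/
theorem result (q : ℕ) (hq : 2 ≤ q) (L : ∀ (p : ℕ) [Fact p.Prime], PadicAlgCl p → PadicAlgCl p)
    (hL : ∀ (p : ℕ) [Fact p.Prime], IsIwasawaLog p (L p)) (𝒞 : ∀ (p : ℕ) [Fact p.Prime], Set (PadicAlgCl p))
    (h𝒞 : ∀ (p : ℕ) [Fact p.Prime], (𝒞 p).Countable) :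
    ∃ E : Set ℝ, dimH E ≤ ENNReal.ofReal (q / (q + 1 / ((q : ℝ) * 2 ^ (q - 1)))) ∧ ∀ α : ℝ, 0 < α → α ∉ E →
      ∃ η : ℝ, 0 < η ∧ ∀ (p : ℕ) [Fact p.Prime] (K : IntermediateField ℚ (PadicAlgCl p)), FiniteDimensional ℚ K →
      ∀ (s : ℕ) (v : Fin s → PadicAlgCl p), (∀ i, v i ∈ 𝒞 p) →
      ∃ κ : ℝ, 0 < κ ∧ ∀ᶠ N : ℕ in atTop, ∀ P : Polynomial ℤ, P.natDegree = q → 0 < P.leadingCoeff →
        (∀ j, |((P.coeff j : ℤ) : ℝ)| ≤ (N : ℝ) ^ η) →
        (badW (Fails (L p) (Submodule.span K (Set.range v))) ⌊(N : ℝ) ^ κ⌋₊ α P N : ℝ) ≤ (N : ℝ) ^ (1 - κ) := by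
  classical
  have hC : ∀ p : {p : ℕ // Fact p.Prime}, Countable {x : @PadicAlgCl p.1 p.2 // x ∈ @𝒞 p.1 p.2} := fun p =>
    (@h𝒞 p.1 p.2).to_subtype
  have hK : ∀ p : {p : ℕ // Fact p.Prime}, Countable {K : IntermediateField ℚ (@PadicAlgCl p.1 p.2) //
      FiniteDimensional ℚ K} := fun p => @countG (@PadicAlgCl p.1 p.2) _ _
  obtain ⟨E, hE, hg⟩ := exc_bad (ι := Σ p : {p : ℕ // Fact p.Prime}, {K : IntermediateField ℚ (@PadicAlgCl p.1 p.2) //
      FiniteDimensional ℚ K} × (Σ s : ℕ, Fin s → {x : @PadicAlgCl p.1 p.2 // x ∈ @𝒞 p.1 p.2})) q hq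
    (fun i => @Fails i.1.1 i.1.2 (@L i.1.1 i.1.2) i.2.1.1
      (Submodule.span i.2.1.1 (Set.range fun j => (i.2.2.2 j : @PadicAlgCl i.1.1 i.1.2))))
  refine ⟨E, hE, fun α hα hαE => ?_⟩
  obtain ⟨η, hη, h1⟩ := hg α hα hαE
  refine ⟨η, hη, fun p hp K hK s v hv => ?_⟩
  have hV : Module.Finite K (Submodule.span K (Set.range v)) := Module.Finite.span_of_finite _ (Set.finite_range v)
  obtain ⟨c, C, hc, h2⟩ := few (L p) (hL p) K hK _ hV
  exact h1 ⟨⟨p, hp⟩, ⟨K, hK⟩, ⟨s, fun j => ⟨v j, hv j⟩⟩⟩ C c hc h2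

end Pool.Agent.Results.MP_dd0d16_nt.PadicLogsAlongRealMultiples
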