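import Pool.Agent.Q280.LF.Padic

/-!
# The field of all counterexamples to the `p`-adic strong four exponentials conjecture

Let `𝓛` be the space of all linear combinations of `1` and of values of the Iwasawa logarithm at algebraic numbers, with
algebraic coefficients, in the algebraic closure `Ω` of `ℚ_p`.  A subfield `F` of `Ω`, algebraically closed in `Ω`, is
called *free* if any elements of `𝓛` which are linearly independent over the algebraic numbers modulo `F` are algebraically
independent over `F`.  We prove, unconditionally: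

1. There is a smallest free field `F₀`.
2. Every counterexample to the strong four exponentials conjecture has all its entries in `F₀`.  So the conjecture holds
   for all matrices which have an entry outside `F₀`, and it is equivalent to its restriction to `F₀ ∩ 𝓛`.
3. `F₀` is the field of algebraic numbers if and only if linearly independent `p`-adic logarithms of algebraic numbers are
   algebraically independent.  The latter holds up to a bounded error if and only if `F₀ ∩ 𝓛` is finite dimensional.
4. `F₀` is also the smallest algebraically closed field `F` such that the locus over `F` of every point `x` of `𝓛 ^ n` is a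
   translate `b + H` of a linear space `H` which is defined over the algebraic numbers, `b ∈ (F ∩ 𝓛) ^ n`.
5. `F₀` is the algebraic closure of the field generated by `F₀ ∩ 𝓛`, and it is stable under all automorphisms of `Ω` over
   `ℚ_p`.  An element `x` of `𝓛` belongs to `F₀` if and only if it is algebraic over the field generated by each
   complementary hyperplane of `𝓛`.

The proofs are those of `MP_60829e_nt.SmallestFreeField`, with the theorem of Brumer in the place of Baker's theorem; the
automorphisms of `Ω` are isometries and commute with the Iwasawa logarithm.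
-/

set_option autoImplicit false

open Matroid Set Module Pool.Agent.Q280.LF

namespace Pool.Agent.Results.MP_dd0d16_nt.SmallestFreeFieldPadic

section Definitions

variable {p : ℕ} [Fact p.Prime] (L : PadicAlgCl p → PadicAlgCl p)

/-- `L` is the Iwasawa `p`-adic logarithm on the algebraic closure of `ℚ_p`. -/
def IsIwasawaLog : Prop :=
  (∀ x y : PadicAlgCl p, x ≠ 0 → y ≠ 0 → L (x * y) = L x + L y) ∧
  L ((p : ℕ) : PadicAlgCl p) = 0 ∧
  ∀ z : PadicAlgCl p, ‖z‖ < 1 →
    HasSum (fun n : ℕ => (-1 : PadicAlgCl p) ^ n * z ^ (n + 1) / ((n : PadicAlgCl p) + 1))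
      (L (1 + z))

/-- All linear combinations of `1` and the logarithms of algebraic numbers, with algebraic coefficients. -/
noncomputable def LinForms : Submodule (algebraicClosure ℚ (PadicAlgCl p)) (PadicAlgCl p) :=
  Submodule.span (algebraicClosure ℚ (PadicAlgCl p)) ({1} ∪ {z | ∃ α, α ≠ 0 ∧ IsAlgebraic ℚ α ∧ z = L α})

/-- `F` is algebraically closed in the algebraic closure of `ℚ_p`. -/
def Closed (F : IntermediateField ℚ (PadicAlgCl p)) : Prop := ∀ z : PadicAlgCl p, IsAlgebraic F z → z ∈ F

/-- Elements of `LinForms L` which are linearly independent over the algebraic numbers modulo `F` are algebraically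
independent over `F`. -/
def FreeOver (F : IntermediateField ℚ (PadicAlgCl p)) : Prop :=
  ∀ (n : ℕ) (x : Fin n → PadicAlgCl p), (∀ i, x i ∈ LinForms L) →
    (∀ c : Fin n → algebraicClosure ℚ (PadicAlgCl p), ∑ i, c i • x i ∈ F → c = 0) → AlgebraicIndependent F x

/-- The locus over `F` of every point with coordinates in `LinForms L` is a translate `b + H`, with `b` in `F` and in
`LinForms L`, of a linear space `H` with algebraic coefficients (spanned by the vectors `a j`). -/
def LinearLoci (F : IntermediateField ℚ (PadicAlgCl p)) : Prop :=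
  ∀ (n : ℕ) (x : Fin n → PadicAlgCl p), (∀ i, x i ∈ LinForms L) →
    ∃ (k : ℕ) (b : Fin n → F) (a : Fin k → Fin n → algebraicClosure ℚ (PadicAlgCl p)) (y : Fin k → PadicAlgCl p),
      (∀ i, (b i : PadicAlgCl p) ∈ LinForms L) ∧ (∀ j, y j ∈ LinForms L) ∧
      (∀ i, x i = b i + ∑ j, a j i • y j) ∧
      ∀ q : MvPolynomial (Fin n) F, MvPolynomial.aeval x q = 0 →
        ∀ t : Fin k → PadicAlgCl p, MvPolynomial.aeval (fun i => (b i : PadicAlgCl p) + ∑ j, a j i • t j) q = 0

/-- A counterexample to the strong four exponentials conjecture (as in the frozen statement). -/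
def IsCounterexample (M : Matrix (Fin 2) (Fin 2) (PadicAlgCl p)) : Prop :=
  (∀ i j, M i j ∈ LinForms L) ∧ M.det = 0 ∧
  (∀ a b : PadicAlgCl p, IsAlgebraic ℚ a → IsAlgebraic ℚ b → (∀ j, a * M 0 j + b * M 1 j = 0) → a = 0 ∧ b = 0) ∧
  (∀ a b : PadicAlgCl p, IsAlgebraic ℚ a → IsAlgebraic ℚ b → (∀ i, a * M i 0 + b * M i 1 = 0) → a = 0 ∧ b = 0)

/-- Linearly independent logarithms of algebraic numbers are algebraically independent. -/
def LogConjecture : Prop :=
  ∀ (n : ℕ) (l : Fin n → PadicAlgCl p), (∀ i, ∃ α, α ≠ 0 ∧ IsAlgebraic ℚ α ∧ l i = L α) →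
    LinearIndependent ℚ l → AlgebraicIndependent ℚ l

/-- The same with a bounded error. -/
def LogConjectureBounded : Prop :=
  ∃ C : ℕ, ∀ (n : ℕ) (l : Fin n → PadicAlgCl p), (∀ i, ∃ α, α ≠ 0 ∧ IsAlgebraic ℚ α ∧ l i = L α) →
    LinearIndependent ℚ l →
    ∃ w : Fin (n - C) → PadicAlgCl p, (∀ i, w i ∈ IntermediateField.adjoin ℚ (range l)) ∧ AlgebraicIndependent ℚ w

/-- The elements of `F` in `LinForms L`, as a space over the algebraic numbers. -/
noncomputable def inter (F : IntermediateField ℚ (PadicAlgCl p)) :
    Submodule (algebraicClosure ℚ (PadicAlgCl p)) (PadicAlgCl p) :=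
  Submodule.span (algebraicClosure ℚ (PadicAlgCl p)) {z | z ∈ F ∧ z ∈ LinForms L}

end Definitions

section Proofs

variable {p : ℕ} [Fact p.Prime] {L : PadicAlgCl p → PadicAlgCl p}

theorem four_matrix {F : IntermediateField ℚ (PadicAlgCl p)}
    (hF : LinLoc (Ω := PadicAlgCl p) (K := algebraicClosure ℚ (PadicAlgCl p)) (LinForms (p := p) L) F)
    {M : Matrix (Fin 2) (Fin 2) (PadicAlgCl p)} (hM : IsCounterexample L M) : ∀ i j, M i j ∈ F := by
  obtain ⟨h1, h2, h3, h4⟩ := hM
  rw [Matrix.det_fin_two] at h2
  have hone : IsAlgebraic ℚ (1 : PadicAlgCl p) := isAlgebraic_one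
  have hzero : IsAlgebraic ℚ (0 : PadicAlgCl p) := isAlgebraic_zero
  have h00 : M 0 0 ≠ 0 := by
    intro h0
    rw [h0, zero_mul, zero_sub, neg_eq_zero] at h2
    rcases mul_eq_zero.mp h2 with h | h
    · have := h3 1 0 hone hzero (fun j => by
        rw [one_mul, zero_mul, add_zero]
        fin_cases j
        · exact h0
        · exact h)
      exact one_ne_zero this.1
    · have := h4 1 0 hone hzero (fun i => by
        rw [one_mul, zero_mul, add_zero]
        fin_cases i
        · exact h0
        · exact h)
      exact one_ne_zero this.1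
  let x : Fin 2 → PadicAlgCl p := ![M 0 0, M 1 0]
  let y : Fin 2 → PadicAlgCl p := ![1, M 0 1 / M 0 0]
  have hxy : ∀ i j, x i * y j = M i j := by
    intro i j
    fin_cases i <;> fin_cases j
    · simp [x, y]
    · simp [x, y]
      field_simp
    · simp [x, y]
    · simp only [x, y, Fin.mk_one, Matrix.cons_val_one, Matrix.cons_val_fin_one]
      rw [mul_div_assoc', div_eq_iff h00]
      linear_combination -h2
  have hx : LinearIndependent (algebraicClosure ℚ (PadicAlgCl p)) x := by
    rw [Fintype.linearIndependent_iff]
    intro g hg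
    rw [Fin.sum_univ_two, Algebra.smul_def, Algebra.smul_def] at hg
    have h5 := h3 _ _ (algNum.alg (g 0)) (algNum.alg (g 1)) (fun j => by
      rw [← hxy 0 j, ← hxy 1 j]
      linear_combination y j * hg)
    intro i
    fin_cases i
    · exact (map_eq_zero _).mp h5.1
    · exact (map_eq_zero _).mp h5.2
  have hy : LinearIndependent (algebraicClosure ℚ (PadicAlgCl p)) y := by
    rw [Fintype.linearIndependent_iff]
    intro g hg
    rw [Fin.sum_univ_two, Algebra.smul_def, Algebra.smul_def] at hg
    have h5 := h4 _ _ (algNum.alg (g 0)) (algNum.alg (g 1)) (fun i => by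
      rw [← hxy i 0, ← hxy i 1]
      linear_combination x i * hg)
    intro i
    fin_cases i
    · exact (map_eq_zero _).mp h5.1
    · exact (map_eq_zero _).mp h5.2
  intro i j
  rw [← hxy i j]
  exact four hF hx hy (fun i j => by rw [hxy]; exact h1 i j) i j

end Proofs

/-! ### The result -/

theorem result (p : ℕ) [Fact p.Prime] (L : PadicAlgCl p → PadicAlgCl p) (hL : IsIwasawaLog L) :
    ∃ F : IntermediateField ℚ (PadicAlgCl p),
      -- the smallest algebraically closed field over which the linear forms in logarithms are free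
      (Closed F ∧ FreeOver L F ∧ ∀ F', Closed F' → FreeOver L F' → F ≤ F') ∧
      -- all counterexamples
      (∀ M, IsCounterexample L M → ∀ i j, M i j ∈ F) ∧
      -- the independence of logarithms
      (LogConjecture L ↔ F = algebraicClosure ℚ (PadicAlgCl p)) ∧
      (LogConjectureBounded L ↔ Module.Finite (algebraicClosure ℚ (PadicAlgCl p)) (inter L F)) ∧
      -- the smallest algebraically closed field over which all loci are linear
      (LinearLoci L F ∧ ∀ F', Closed F' → LinearLoci L F' → F ≤ F') ∧
      -- generated by linear forms, stable under automorphisms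
      (∀ z ∈ F, IsAlgebraic (IntermediateField.adjoin ℚ {x | x ∈ F ∧ x ∈ LinForms L}) z) ∧
      (∀ σ : PadicAlgCl p ≃ₐ[ℚ_[p]] PadicAlgCl p, ∀ z ∈ F, σ z ∈ F) ∧
      -- the description by hyperplanes
      (∀ x ∈ LinForms L, x ∈ F ↔ ∀ H ≤ LinForms L, x ∉ H →
        H ⊔ Submodule.span (algebraicClosure ℚ (PadicAlgCl p)) {x} = LinForms L →
          IsAlgebraic (IntermediateField.adjoin ℚ (H : Set (PadicAlgCl p))) x) := by
  have hI : Pool.Agent.W245.PB.IsIwasawaLog p L := ⟨hL.1, hL.2.1, hL.2.2⟩
  have hK := algNum (p := p)
  have hE : LinForms L = Lf (algebraicClosure ℚ (PadicAlgCl p)) (plogs L) := rfl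
  refine ⟨FF hK.alg (LinForms L), ⟨clos_FF hK.alg, free_FF hK.alg, fun F' h1 h2 => FF_le hK.alg h1 h2⟩,
    fun M hM => four_matrix (linLoc_of_free hK.alg (clos_FF hK.alg) (free_FF hK.alg)) hM,
    indepConj_iff hK (baker_plogs hI), ?_,
    ⟨linLoc_of_free hK.alg (clos_FF hK.alg) (free_FF hK.alg),
      fun F' h1 h2 => FF_le hK.alg h1 (free_of_linLoc hK.alg h1 h2)⟩, ?_, ?_, ?_⟩
  · have h1 : inter L (FF hK.alg (LinForms L)) = core hK.alg (LinForms L) := by
      apply le_antisymm
      · rw [inter, Submodule.span_le]
        rintro z ⟨h1, h2⟩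
        exact (mem_core_iff hK.alg).mpr ⟨h1, h2⟩
      · intro z hz
        exact Submodule.subset_span ((mem_core_iff hK.alg).mp hz)
    rw [h1]
    exact bounded_iff hK (baker_plogs hI)
  · intro z hz
    rw [← mem_cl_adjoin]
    exact cl_mono (fun x hx => (mem_core_iff hK.alg).mp hx) hz
  · intro σ z hz
    exact FF_auto (S := plogs L) hK (autoQ σ).symm (fun z hz => plogs_auto hI σ.symm hz) hz
  · intro x hx
    rw [mem_FF_iff hK.alg hx]
    constructor
    · intro h H h1 h2 h3
      rw [← mem_cl_adjoin]
      exact h H h1 h2 h3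
    · intro h H h1 h2 h3
      rw [mem_cl_adjoin]
      exact h H h1 h2 h3

end Pool.Agent.Results.MP_dd0d16_nt.SmallestFreeFieldPadic
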