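import Pool.Agent.Q138.PS.WV
import Pool.Agent.Q138.AJ.Rdd0d16a
import Pool.Agent.Q138.AJ.Rdd0d16b

/-!
# The `p`-adic strong four exponentials conjecture for the logarithms of all tuples of integers close to a given point

Let `p` be a prime, `K_j` (`j ∈ ℕ`) fields of algebraic numbers in the algebraic closure of `ℚ_p`, for instance `K_j = ` all
algebraic numbers, and `V_j` finite dimensional `K_j`-spaces in it. The PROPERTY of a tuple `n` of integers, for `j`: the logarithms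
`log_p n_i` are linearly independent over `K_j` modulo `V_j`, and every `2 × 2` matrix over `V_j + ∑ K_j log_p n_i` with an entry
outside `V_j` and with `K_j`-linearly independent rows and columns has rank `2`.

(1) For almost all `z ∈ ℝ ^ s` (Lebesgue measure), all `j`, `δ > 0` and `b`, all but finitely many of the `(s + 1)`-tuples `n` of
integers `≥ 2` with `|n_i / n_0 - z_i| ≤ b |n| ^ (-1 - 1 / s) (log |n|) ^ (-δ)` for all `i` have the property. For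
`δ ≤ 1 / s` there are infinitely many such `n` for almost all `z`, by Khinchin's theorem (not proved here).

(2) More generally this holds for `z` in any measure space and the tuples `n` with `z ∈ U_n`, where the `U_n` are any sets of
measure at most `C |n| ^ (-k) (log |n|) ^ (-δ)`, e.g. residue classes in `ℤ_ℓ ^ k`.

(3) If the degrees of the `K_j` and the dimensions of the `V_j` are bounded, there is `c > 0`, independent of `p` and of `K_j`, `V_j`,
with the following property. Let `Y` be a metric space and `q` ANY map from the `k`-tuples of natural numbers to `Y`, and `τ > 0`.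
There is a set `Z ⊆ Y` of Hausdorff dimension at most `(k - c) / τ` such that for every `z ∈ Y` outside `Z`, all `j` and all `b`, all
but finitely many of the `k`-tuples `n` of positive integers with `dist (q n, z) ≤ b |n| ^ (-τ)` have the property.

(4) In the case of (1) the dimension is at most `s - c s / (s + 1)` for Dirichlet's exponent: all but finitely many of the infinitely
many `n` with `|n_i / n_0 - z_i| ≤ n_0 ^ (-1 - 1 / s)` have the property (`z` with positive coordinates).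
-/

set_option autoImplicit false

namespace Pool.Agent.Results.MP_dd0d16_nt.TuplesNearGivenPoints

open Module Pool.Agent.Q138.PS Pool.Agent.Q138.AJ.Rdd0d16a

/-- the largest coordinate -/
def size {k : ℕ} (n : Fin k → ℕ) : ℕ := Finset.univ.sup n

/-- A sequence of spaces, over number fields of degree at most `d`, of dimension at most `m`. -/
def Spaces (p : ℕ) [Fact p.Prime] (d m : ℕ) (K : ℕ → IntermediateField ℚ (PadicAlgCl p))
    (V : ∀ j, Submodule (K j) (PadicAlgCl p)) : Prop :=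
  ∀ j, FiniteDimensional ℚ (K j) ∧ finrank ℚ (K j) ≤ d ∧ Module.Finite (K j) (V j) ∧ finrank (K j) (V j) ≤ m

theorem count (k d m : ℕ) :
    ∃ c : ℝ, 0 < c ∧ ∀ (p : ℕ) [Fact p.Prime] (L : PadicAlgCl p → PadicAlgCl p), IsIwasawaLog p L →
      ∀ (K : ℕ → IntermediateField ℚ (PadicAlgCl p)) (V : ∀ j, Submodule (K j) (PadicAlgCl p)), Spaces p d m K V →
      ∀ j, ∃ C : ℝ, ∀ T : ℕ, 1 ≤ T →
        {n | n ∈ {n : Fin k → ℕ | (∀ i, 1 ≤ n i) ∧ ¬ StrongFour (V j) (fun i => L (n i : PadicAlgCl p))} ∧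
          ∀ i, n i ≤ T}.Finite ∧
        (({n | n ∈ {n : Fin k → ℕ | (∀ i, 1 ≤ n i) ∧ ¬ StrongFour (V j) (fun i => L (n i : PadicAlgCl p))} ∧
          ∀ i, n i ≤ T}).ncard : ℝ) ≤ C * (T : ℝ) ^ ((k : ℝ) - c) := by
  obtain ⟨c, hc, C, h⟩ := Pool.Agent.Q138.AJ.Rdd0d16a.result k d m
  refine ⟨c, hc, fun p _ L hL K V hKV j => ⟨C * p, fun T hT => ?_⟩⟩
  obtain ⟨h1, h2, h3, h4⟩ := hKV j
  obtain ⟨B, hB, hgood⟩ := h p L hL (K j) h1 h2 (V j) h3 h4 T hT
  have hsub : {n | n ∈ {n : Fin k → ℕ | (∀ i, 1 ≤ n i) ∧ ¬ StrongFour (V j) (fun i => L (n i : PadicAlgCl p))} ∧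
      ∀ i, n i ≤ T} ⊆ (B : Set (Fin k → ℕ)) := by
    rintro n ⟨⟨a1, a2⟩, a3⟩
    by_contra hn
    exact a2 (hgood n (fun i => ⟨a1 i, a3 i⟩) hn)
  refine ⟨B.finite_toSet.subset hsub, le_trans ?_ hB⟩
  have := Set.ncard_le_ncard hsub B.finite_toSet
  rw [Set.ncard_coe_finset] at this
  exact_mod_cast this

/-- A sequence of finite dimensional spaces over fields of algebraic numbers. -/
def AlgebraicSpaces (p : ℕ) [Fact p.Prime] (K : ℕ → IntermediateField ℚ (PadicAlgCl p))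
    (V : ∀ j, Submodule (K j) (PadicAlgCl p)) : Prop :=
  ∀ j, K j ≤ algebraicClosure ℚ (PadicAlgCl p) ∧ Module.Finite (K j) (V j)

theorem count_rate (k : ℕ) (p : ℕ) [Fact p.Prime] (L : PadicAlgCl p → PadicAlgCl p) (hL : IsIwasawaLog p L)
    (K : IntermediateField ℚ (PadicAlgCl p)) (V : Submodule K (PadicAlgCl p)) (hK : K ≤ algebraicClosure ℚ (PadicAlgCl p))
    (hV : Module.Finite K V) (η : ℝ) (hη : 0 < η) : ∃ C : ℝ, 0 ≤ C ∧ ∀ x : ℕ, 16 ≤ x →
      (({n | n ∈ {n : Fin k → ℕ | (∀ i, 2 ≤ n i) ∧ ¬ StrongFour V (fun i => L (n i : PadicAlgCl p))} ∧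
        ∀ i, n i ≤ x}).ncard : ℝ) ≤ C * (x : ℝ) ^ k * (Real.log x) ^ (-(1 - η)) := by
  classical
  obtain ⟨C, h⟩ := Pool.Agent.Q138.AJ.Rdd0d16b.result (finrank K V) k
  obtain ⟨C', hC', h'⟩ := loglog_le C η hη
  refine ⟨C', hC', fun x hx => ?_⟩
  have h1 := h x hx p L hL K hK V hV le_rfl
  refine le_trans ?_ (h1.trans ?_)
  · refine Nat.cast_le.2 ?_
    rw [← Set.ncard_coe_finset]
    refine Set.ncard_le_ncard ?_ (Finset.finite_toSet _)
    rintro n ⟨⟨h2, h3⟩, h4⟩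
    rw [Finset.mem_coe, Finset.mem_filter, Fintype.mem_piFinset]
    exact ⟨fun i => Finset.mem_Icc.2 ⟨by have := h2 i; omega, h4 i⟩, h3⟩
  · calc (C : ℝ) * Real.log (Real.log x) ^ C / Real.log x * (x : ℝ) ^ k
        ≤ C' * (Real.log x) ^ (-(1 - η)) * (x : ℝ) ^ k := mul_le_mul_of_nonneg_right (h' x hx) (by positivity)
      _ = C' * (x : ℝ) ^ k * (Real.log x) ^ (-(1 - η)) := by ring

/-- **Theorem.** -/
theorem result :
    (∀ s : ℕ, 1 ≤ s → ∀ (p : ℕ) [Fact p.Prime] (L : PadicAlgCl p → PadicAlgCl p), IsIwasawaLog p L →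
      ∀ (K : ℕ → IntermediateField ℚ (PadicAlgCl p)) (V : ∀ j, Submodule (K j) (PadicAlgCl p)), AlgebraicSpaces p K V →
        ∀ᵐ z : Fin s → ℝ, ∀ (j : ℕ) (δ : ℝ), 0 < δ → ∀ b : ℝ,
          {n : Fin (s + 1) → ℕ | (∀ i, 2 ≤ n i) ∧
            (∀ i : Fin s, |(n i.succ : ℝ) / n 0 - z i| ≤
              b * (size n : ℝ) ^ (-(1 + 1 / (s : ℝ))) * (Real.log (size n)) ^ (-δ)) ∧
            ¬ StrongFour (V j) (fun i => L (n i : PadicAlgCl p))}.Finite) ∧
    (∀ k : ℕ, 1 ≤ k → ∀ (p : ℕ) [Fact p.Prime] (L : PadicAlgCl p → PadicAlgCl p), IsIwasawaLog p L →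
      ∀ (K : ℕ → IntermediateField ℚ (PadicAlgCl p)) (V : ∀ j, Submodule (K j) (PadicAlgCl p)), AlgebraicSpaces p K V →
        ∀ (Y : Type) [MeasurableSpace Y] (μ : MeasureTheory.Measure Y) (U : (Fin k → ℕ) → Set Y) (C δ : ℝ), 0 < δ →
          (∀ n, (∀ i, 2 ≤ n i) → μ (U n) ≤ ENNReal.ofReal (C * ((size n : ℝ) ^ k)⁻¹ * (Real.log (size n)) ^ (-δ))) →
          ∀ᵐ z ∂μ, ∀ j : ℕ,
            {n : Fin k → ℕ | (∀ i, 2 ≤ n i) ∧ z ∈ U n ∧ ¬ StrongFour (V j) (fun i => L (n i : PadicAlgCl p))}.Finite) ∧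
    (∀ k d m : ℕ, ∃ c : ℝ, 0 < c ∧ ∀ (p : ℕ) [Fact p.Prime] (L : PadicAlgCl p → PadicAlgCl p), IsIwasawaLog p L →
      ∀ (K : ℕ → IntermediateField ℚ (PadicAlgCl p)) (V : ∀ j, Submodule (K j) (PadicAlgCl p)), Spaces p d m K V →
        ∀ (Y : Type) [MetricSpace Y] [MeasurableSpace Y] [BorelSpace Y] (q : (Fin k → ℕ) → Y) (τ : ℝ), 0 < τ →
          ∃ Z : Set Y, dimH Z ≤ ENNReal.ofReal ((k - c) / τ) ∧ ∀ z, z ∉ Z → ∀ (j : ℕ) (b : ℝ),
            {n : Fin k → ℕ | (∀ i, 1 ≤ n i) ∧ dist (q n) z ≤ b * (max 1 (size n : ℝ)) ^ (-τ) ∧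
              ¬ StrongFour (V j) (fun i => L (n i : PadicAlgCl p))}.Finite) ∧
    (∀ s d m : ℕ, 1 ≤ s → ∃ c : ℝ, 0 < c ∧
      ∀ (p : ℕ) [Fact p.Prime] (L : PadicAlgCl p → PadicAlgCl p), IsIwasawaLog p L →
      ∀ (K : ℕ → IntermediateField ℚ (PadicAlgCl p)) (V : ∀ j, Submodule (K j) (PadicAlgCl p)), Spaces p d m K V →
        ∃ Z : Set (Fin s → ℝ), dimH Z ≤ ENNReal.ofReal (s - c * s / (s + 1)) ∧ ∀ z, z ∉ Z → (∀ i, 0 < z i) →
          {n : Fin (s + 1) → ℕ | (∀ i, 2 ≤ n i) ∧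
            ∀ i : Fin s, |(n i.succ : ℝ) / n 0 - z i| ≤ (n 0 : ℝ) ^ (-(1 + 1 / (s : ℝ)))}.Infinite ∧
          ∀ j, {n : Fin (s + 1) → ℕ | (∀ i, 2 ≤ n i) ∧
            (∀ i : Fin s, |(n i.succ : ℝ) / n 0 - z i| ≤ (n 0 : ℝ) ^ (-(1 + 1 / (s : ℝ)))) ∧
            ¬ StrongFour (V j) (fun i => L (n i : PadicAlgCl p))}.Finite) := by
  refine ⟨fun s hs p _ L hL K V hKV => ?_, fun k hk p _ L hL K V hKV Y _ μ U C δ hδ hU => ?_, fun k d m => ?_,
    fun s d m hs => ?_⟩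
  · rw [MeasureTheory.ae_all_iff]
    intro j
    have h := ae_ratios hs {n : Fin (s + 1) → ℕ | (∀ i, 2 ≤ n i) ∧ ¬ StrongFour (V j) (fun i => L (n i : PadicAlgCl p))}
      (fun n hn => (hn.1 0).trans (Finset.le_sup (f := n) (Finset.mem_univ _)))
      (fun η hη _ => count_rate (s + 1) p L hL (K j) (V j) (hKV j).1 (hKV j).2 η hη)
    filter_upwards [h] with z hz δ hδ b
    refine (hz δ hδ b).subset ?_
    rintro n ⟨h1, h2, h3⟩
    exact ⟨⟨h1, h3⟩, h2⟩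
  · rw [MeasureTheory.ae_all_iff]
    intro j
    have hη0 : 0 < min (δ / 2) (1 / 2) := lt_min (by linarith) (by norm_num)
    have hη1 : min (δ / 2) (1 / 2) ≤ 1 / 2 := min_le_right _ _
    have hη2 : min (δ / 2) (1 / 2) ≤ δ / 2 := min_le_left _ _
    obtain ⟨C', hC', h'⟩ := count_rate k p L hL (K j) (V j) (hKV j).1 (hKV j).2 _ hη0
    have h2 : ∀ n ∈ {n : Fin k → ℕ | (∀ i, 2 ≤ n i) ∧ ¬ StrongFour (V j) (fun i => L (n i : PadicAlgCl p))},
        2 ≤ tsize n := fun n hn => (hn.1 ⟨0, hk⟩).trans (Finset.le_sup (f := n) (Finset.mem_univ _))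
    have h := ae_log μ {n : Fin k → ℕ | (∀ i, 2 ≤ n i) ∧ ¬ StrongFour (V j) (fun i => L (n i : PadicAlgCl p))} U
      h2 C' |C| (1 - min (δ / 2) (1 / 2)) δ hC' (abs_nonneg C) (by linarith) hδ.le (by linarith) h' (fun n hn => by
        have h3 : (2 : ℝ) ≤ tsize n := by exact_mod_cast h2 n hn
        have h4 : 0 < Real.log (tsize n) := Real.log_pos (by linarith)
        refine (hU n hn.1).trans (ENNReal.ofReal_le_ofReal ?_)
        have h5 : (0 : ℝ) ≤ ((tsize n : ℝ) ^ k)⁻¹ * (Real.log (tsize n)) ^ (-δ) := by positivity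
        calc C * ((size n : ℝ) ^ k)⁻¹ * (Real.log (size n)) ^ (-δ) =
              C * (((tsize n : ℝ) ^ k)⁻¹ * (Real.log (tsize n)) ^ (-δ)) := by rw [mul_assoc]; rfl
          _ ≤ |C| * (((tsize n : ℝ) ^ k)⁻¹ * (Real.log (tsize n)) ^ (-δ)) :=
              mul_le_mul_of_nonneg_right (le_abs_self C) h5
          _ = |C| * ((tsize n : ℝ) ^ k)⁻¹ * (Real.log (tsize n)) ^ (-δ) := by rw [mul_assoc])
    filter_upwards [h] with z hz
    refine hz.subset ?_
    rintro n ⟨h1, h2, h3⟩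
    exact ⟨⟨h1, h3⟩, h2⟩
  · obtain ⟨c, hc, h⟩ := count k d m
    refine ⟨c, hc, fun p _ L hL K V hKV Y _ _ _ q τ hτ => ?_⟩
    obtain ⟨Z, hZ, hz⟩ := fin_tuple_seq q _ _ (h p L hL K V hKV) τ hτ
    refine ⟨Z, hZ, fun z hzZ j b => (hz z hzZ j b).subset ?_⟩
    rintro n ⟨h1, h2, h3⟩
    exact ⟨⟨h1, h3⟩, h2⟩
  · obtain ⟨c, hc, h⟩ := count (s + 1) d m
    refine ⟨c, hc, fun p _ L hL K V hKV => ?_⟩
    obtain ⟨Z, hZ, hz⟩ := fin_ratios hs _ c (h p L hL K V hKV)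
    refine ⟨Z, hZ, fun z hzZ hz0 => ⟨(hz z hzZ hz0).1, fun j => ((hz z hzZ hz0).2 j).subset ?_⟩⟩
    rintro n ⟨h1, h2, h3⟩
    exact ⟨h1, h2, fun i => by have := h1 i; omega, h3⟩

end Pool.Agent.Results.MP_dd0d16_nt.TuplesNearGivenPoints
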